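import Pool.Agent.V11210.NA.One

/-!
# Polynomials in `r + 1` variables over `ℤ` as polynomials in `r` variables over `ℤ[X]`
-/

set_option autoImplicit false

namespace Pool.Agent.V11210.NA

open Polynomial
open Pool.Agent.TH456.TM (MeasT σx)

variable {r : ℕ}

/-- the first variable becomes `X` -/
noncomputable def split : MvPolynomial (Fin (r + 1)) ℤ →+* MvPolynomial (Fin r) ℤ[X] :=
  MvPolynomial.eval₂Hom ((MvPolynomial.C : ℤ[X] →+* MvPolynomial (Fin r) ℤ[X]).comp (Polynomial.C : ℤ →+* ℤ[X]))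
    (Fin.cons (MvPolynomial.C Polynomial.X) fun i => MvPolynomial.X i)

lemma split_monomial (s : Fin (r + 1) →₀ ℕ) (a : ℤ) :
    split (MvPolynomial.monomial s a) =
      MvPolynomial.monomial s.tail (Polynomial.monomial (s 0) a) := by
  rw [split, MvPolynomial.coe_eval₂Hom, MvPolynomial.eval₂_monomial,
    Finsupp.prod_fintype _ _ (by simp), Fin.prod_univ_succ]
  simp only [Fin.cons_zero, Fin.cons_succ]
  rw [MvPolynomial.monomial_eq, Finsupp.prod_fintype _ _ (by simp),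
    ← Polynomial.C_mul_X_pow_eq_monomial]
  simp only [RingHom.comp_apply, map_mul, map_pow, Finsupp.tail_apply]
  ring

lemma coeff_split (P : MvPolynomial (Fin (r + 1)) ℤ) (m : Fin r →₀ ℕ) (i : ℕ) :
    ((split P).coeff m).coeff i = P.coeff (Finsupp.cons i m) := by
  induction P using MvPolynomial.induction_on' with
  | monomial s a =>
    rw [split_monomial, MvPolynomial.coeff_monomial, MvPolynomial.coeff_monomial]
    by_cases h : s = Finsupp.cons i m
    · subst h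
      simp
    · rw [if_neg h]
      by_cases h1 : s.tail = m
      · rw [if_pos h1, Polynomial.coeff_monomial, if_neg]
        rintro rfl
        apply h
        rw [← h1, Finsupp.cons_tail]
      · rw [if_neg h1, Polynomial.coeff_zero]
  | add p q hp hq =>
    rw [map_add, MvPolynomial.coeff_add, Polynomial.coeff_add, MvPolynomial.coeff_add, hp, hq]

lemma degree_cons (i : ℕ) (m : Fin r →₀ ℕ) : (Finsupp.cons i m).degree = i + m.degree := by
  rw [Finsupp.degree_eq_sum, Finsupp.degree_eq_sum, Fin.sum_univ_succ]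
  simp

lemma small_split {D : ℕ} {H : ℝ} (P : MvPolynomial (Fin (r + 1)) ℤ)
    (hP : P.totalDegree ≤ D) (hc : ∀ m, |((P.coeff m : ℤ) : ℝ)| ≤ H) : Small D H (split P) := by
  have hz : ∀ m : Fin (r + 1) →₀ ℕ, D < m.degree → P.coeff m = 0 := by
    intro m hm
    by_contra hcon
    have h1 := MvPolynomial.le_totalDegree (MvPolynomial.mem_support_iff.2 hcon)
    rw [Finsupp.degree_eq_sum] at hm
    rw [Finsupp.sum_fintype _ _ (by simp)] at h1
    omega
  refine ⟨?_, fun m => ⟨?_, fun i => ?_⟩⟩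
  · refine Finset.sup_le fun m hm => ?_
    rw [Finsupp.sum_fintype _ _ (by simp), ← Finsupp.degree_eq_sum]
    by_contra hcon
    push Not at hcon
    apply MvPolynomial.mem_support_iff.1 hm
    ext i
    rw [coeff_split, Polynomial.coeff_zero]
    exact hz _ (by rw [degree_cons]; omega)
  · rw [Polynomial.natDegree_le_iff_coeff_eq_zero]
    intro i hi
    rw [coeff_split]
    exact hz _ (by rw [degree_cons]; omega)
  · rw [coeff_split]
    exact hc _

/-- evaluation after splitting -/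
lemma eval₂_split {S : Type} [CommRing S] (ψ : ℤ[X] →+* S) (y : Fin r → S)
    (P : MvPolynomial (Fin (r + 1)) ℤ) :
    (split P).eval₂ ψ y = MvPolynomial.aeval (Fin.cons (ψ X) y : Fin (r + 1) → S) P := by
  have h : ((MvPolynomial.eval₂Hom ψ y).comp split) =
      (MvPolynomial.aeval (Fin.cons (ψ X) y : Fin (r + 1) → S) : MvPolynomial (Fin (r + 1)) ℤ →ₐ[ℤ] S).toRingHom := by
    apply MvPolynomial.ringHom_ext
    · intro a
      simp [split]
    · intro i
      refine Fin.cases ?_ (fun j => ?_) i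
      · simp [split]
      · simp [split]
  exact RingHom.congr_fun h P

/-- **Near algebraic relations between `x` and arbitrary numbers.** -/
theorem near_mv {Ω : Type} [Field Ω] [IsAlgClosed Ω] (ι : ℤ[X] →+* Ω)
    (hι : Function.Injective ι) (x : ℂ) (hx : MeasT x) (r D : ℕ) :
    ∃ κ : ℝ, 0 < κ ∧ ∀ T : ℝ, ∃ c : ℝ, 0 < c ∧ ∀ t : Fin r → ℂ, (∀ i, ‖t i‖ ≤ T) →
      ∀ H : ℝ, 1 ≤ H → ∃ y : Fin r → Ω, ∀ P : MvPolynomial (Fin (r + 1)) ℤ, P.totalDegree ≤ D →
        (∀ m, |((P.coeff m : ℤ) : ℝ)| ≤ H) →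
        MvPolynomial.aeval (Fin.cons (ι X) y : Fin (r + 1) → Ω) P ≠ 0 →
        c * H ^ (-κ) ≤ ‖MvPolynomial.aeval (Fin.cons x t : Fin (r + 1) → ℂ) P‖ := by
  obtain ⟨κ, hκ, h⟩ := near_core ι hι x hx r D
  refine ⟨κ, hκ, fun T => ?_⟩
  obtain ⟨c, hc, h⟩ := h T
  refine ⟨c, hc, fun t ht H hH => ?_⟩
  obtain ⟨y, hy⟩ := h t ht H hH
  refine ⟨y, fun P h1 h2 h3 => ?_⟩
  by_contra hcon
  push Not at hcon
  apply h3
  rw [← eval₂_split]
  refine hy _ (small_split P h1 h2) ?_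
  rw [val, eval₂_split]
  have h4 : (σx x) X = x := by simp [σx]
  rw [h4]
  exact hcon

/-- the same with `eval₂` -/
theorem near_ev {Ω : Type} [Field Ω] [IsAlgClosed Ω] (ι : ℤ[X] →+* Ω)
    (hι : Function.Injective ι) (x : ℂ) (hx : MeasT x) (r D : ℕ) :
    ∃ κ : ℝ, 0 < κ ∧ ∀ T : ℝ, ∃ c : ℝ, 0 < c ∧ ∀ t : Fin r → ℂ, (∀ i, ‖t i‖ ≤ T) →
      ∀ H : ℝ, 1 ≤ H → ∃ y : Fin r → Ω, ∀ P : MvPolynomial (Fin (r + 1)) ℤ, P.totalDegree ≤ D →
        (∀ m, |((P.coeff m : ℤ) : ℝ)| ≤ H) →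
        P.eval₂ (Int.castRingHom Ω) (Fin.cons (ι X) y : Fin (r + 1) → Ω) ≠ 0 →
        c * H ^ (-κ) ≤ ‖P.eval₂ (Int.castRingHom ℂ) (Fin.cons x t : Fin (r + 1) → ℂ)‖ := by
  obtain ⟨κ, hκ, h⟩ := near_mv ι hι x hx r D
  refine ⟨κ, hκ, fun T => ?_⟩
  obtain ⟨c, hc, h⟩ := h T
  refine ⟨c, hc, fun t ht H hH => ?_⟩
  obtain ⟨y, hy⟩ := h t ht H hH
  refine ⟨y, fun P h1 h2 h3 => ?_⟩
  have h4 := hy P h1 h2 (by
    rw [MvPolynomial.aeval_def]
    convert h3
    exact RingHom.ext_int _ _)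
  rw [MvPolynomial.aeval_def] at h4
  convert h4
  exact RingHom.ext_int _ _

end Pool.Agent.V11210.NA
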