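import Pool.Agent.V11210.NA.Main

/-!
# Near relations with one number: they are multiples of one irreducible polynomial
-/

set_option autoImplicit false

namespace Pool.Agent.V11210.NA

open Pool.Agent.TH456.TM (σx MeasT σx_coeff vl)
open Polynomial

/-- the field of the algebraic functions of one variable -/
abbrev AF : Type := AlgebraicClosure (FractionRing ℤ[X])

/-- polynomials as algebraic functions -/
noncomputable def fn : ℤ[X] →+* AF :=
  (algebraMap (FractionRing ℤ[X]) AF).comp (algebraMap ℤ[X] (FractionRing ℤ[X]))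

lemma fn_inj : Function.Injective fn :=
  (algebraMap (FractionRing ℤ[X]) AF).injective.comp (IsFractionRing.injective _ _)

/-- the primitive irreducible polynomial of an algebraic function -/
lemma exists_irr (y : AF) : ∃ F : ℤ[X][X], Irreducible F ∧ 0 < F.natDegree ∧
    ∀ P : ℤ[X][X], P.eval₂ fn y = 0 → F ∣ P := by
  classical
  let _ : NormalizedGCDMonoid ℤ[X] := Classical.choice inferInstance
  have hy : IsIntegral (FractionRing ℤ[X]) y := Algebra.IsIntegral.isIntegral y
  set K := FractionRing ℤ[X] with hK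
  set φ := algebraMap ℤ[X] K with hφ
  have hφi : Function.Injective φ := IsFractionRing.injective _ _
  set m := minpoly K y with hm
  have hm0 : m ≠ 0 := minpoly.ne_zero hy
  set G := IsLocalization.integerNormalization (nonZeroDivisors ℤ[X]) m with hG
  obtain ⟨b, hb, hGm⟩ := IsLocalization.integerNormalization_spec (nonZeroDivisors ℤ[X]) m
  rw [← hG] at hGm
  have hG0 : G ≠ 0 := by
    rw [hG, Ne, IsLocalization.integerNormalization_eq_zero_iff (le_refl _)]
    exact hm0
  have hb0 : φ b ≠ 0 := by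
    intro h
    exact nonZeroDivisors.ne_zero hb (hφi (by rw [h, map_zero]))
  have hGm' : G.map φ = C (φ b) * m := by
    rw [hGm, Algebra.smul_def]
    rfl
  have hc0 : φ G.content ≠ 0 := by
    intro h
    exact hG0 (content_eq_zero_iff.1 (hφi (by rw [h, map_zero])))
  have hGF : G.map φ = C (φ G.content) * G.primPart.map φ := by
    conv_lhs => rw [G.eq_C_content_mul_primPart]
    rw [Polynomial.map_mul, map_C]
  set F := G.primPart with hF
  have hFp : F.IsPrimitive := G.isPrimitive_primPart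
  have hFm : F.map φ = C ((φ G.content)⁻¹ * φ b) * m := by
    have h1 : C (φ G.content)⁻¹ * (C (φ G.content) * F.map φ) = C (φ G.content)⁻¹ * (C (φ b) * m) := by
      rw [← hGF, hGm']
    rw [← mul_assoc, ← C_mul, inv_mul_cancel₀ hc0, C_1, one_mul, ← mul_assoc, ← C_mul] at h1
    exact h1
  have hu : (φ G.content)⁻¹ * φ b ≠ 0 := mul_ne_zero (inv_ne_zero hc0) hb0
  have hunit : IsUnit (C ((φ G.content)⁻¹ * φ b) : K[X]) := isUnit_C.2 hu.isUnit
  have hirr : Irreducible (F.map φ) := by
    rw [hFm, irreducible_isUnit_mul hunit]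
    exact minpoly.irreducible hy
  refine ⟨F, (IsPrimitive.irreducible_iff_irreducible_map_fraction_map (K := K) hFp).2 hirr, ?_, ?_⟩
  · have h1 : (F.map φ).natDegree = m.natDegree := by
      rw [hFm, natDegree_C_mul hu]
    rw [natDegree_map_eq_of_injective hφi] at h1
    rw [h1]
    exact minpoly.natDegree_pos hy
  · intro P hP
    refine hFp.dvd_of_fraction_map_dvd_fraction_map (K := K) ?_
    have h1 : m ∣ P.map φ := by
      refine minpoly.dvd _ _ ?_
      rw [aeval_def, eval₂_map]
      exact hP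
    rw [hFm]
    exact (hunit.mul_left_dvd).2 h1

/-- a polynomial in `Y` as a polynomial in one of finitely many variables -/
noncomputable def toMv (D : ℕ) (P : ℤ[X][X]) : MvPolynomial (Fin 1) ℤ[X] :=
  ∑ j ∈ Finset.range (D + 1), MvPolynomial.monomial (Finsupp.single 0 j) (P.coeff j)

lemma eval₂_toMv {S : Type} [CommRing S] (ψ : ℤ[X] →+* S) (D : ℕ) (P : ℤ[X][X])
    (hP : P.natDegree ≤ D) (y : Fin 1 → S) : (toMv D P).eval₂ ψ y = P.eval₂ ψ (y 0) := by
  rw [toMv, MvPolynomial.eval₂_sum, eval₂_eq_sum_range' ψ (show P.natDegree < D + 1 by omega)]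
  refine Finset.sum_congr rfl fun j _ => ?_
  rw [MvPolynomial.eval₂_monomial, Finsupp.prod_single_index (h := fun n e => y n ^ e) (pow_zero _)]

lemma small_toMv (D : ℕ) (H : ℝ) (hH : 0 ≤ H) (P : ℤ[X][X]) (h1 : ∀ j, (P.coeff j).natDegree ≤ D)
    (h2 : ∀ j i, |((P.coeff j).coeff i : ℝ)| ≤ H) : Small D H (toMv D P) := by
  classical
  constructor
  · refine MvPolynomial.totalDegree_finsetSum_le fun j hj => ?_
    refine (MvPolynomial.totalDegree_monomial_le _ _).trans ?_
    rw [Finsupp.sum_single_index rfl]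
    exact Nat.lt_succ_iff.1 (Finset.mem_range.1 hj)
  · intro m
    have h3 : (toMv D P).coeff m = if m 0 ∈ Finset.range (D + 1) then P.coeff (m 0) else 0 := by
      rw [toMv, MvPolynomial.coeff_sum]
      simp only [MvPolynomial.coeff_monomial]
      have h4 : ∀ j, (Finsupp.single 0 j = m) ↔ (m 0 = j) := by
        intro j
        constructor
        · intro h
          rw [← h, Finsupp.single_eq_same]
        · intro h
          refine Finsupp.ext fun i => ?_
          have hi : i = 0 := Subsingleton.elim _ _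
          rw [hi, Finsupp.single_eq_same, h]
      simp only [h4]
      rw [Finset.sum_ite_eq]
    rw [h3]
    split_ifs
    · exact ⟨h1 _, h2 _⟩
    · exact ⟨by simp, fun i => by simpa using hH⟩

/-- **Near relations between `x` and one number: one irreducible polynomial at every scale.** -/
theorem principal (x : ℂ) (hx : MeasT x) (D : ℕ) :
    ∃ κ : ℝ, 0 < κ ∧ ∀ T : ℝ, ∃ c : ℝ, 0 < c ∧ ∀ t : ℂ, ‖t‖ ≤ T → ∀ H : ℝ, 1 ≤ H →
      ∃ F : ℤ[X][X], Irreducible F ∧ 0 < F.natDegree ∧ ∀ P : ℤ[X][X], P.natDegree ≤ D →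
        (∀ j, (P.coeff j).natDegree ≤ D) → (∀ j i, |((P.coeff j).coeff i : ℝ)| ≤ H) →
        ‖P.eval₂ (σx x) t‖ < c * H ^ (-κ) → F ∣ P := by
  obtain ⟨κ, hκ, h⟩ := near_core fn fn_inj x hx 1 D
  refine ⟨κ, hκ, fun T => ?_⟩
  obtain ⟨c, hc, h⟩ := h T
  refine ⟨c, hc, fun t ht H hH => ?_⟩
  obtain ⟨y, hy⟩ := h (fun _ => t) (fun _ => ht) H hH
  obtain ⟨F, hF1, hF2, hF3⟩ := exists_irr (y 0)
  refine ⟨F, hF1, hF2, fun P h1 h2 h3 h4 => hF3 P ?_⟩
  have h5 := hy (toMv D P) (small_toMv D H (by linarith) P h2 h3) (by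
    rw [val, eval₂_toMv (σx x) D P h1]
    exact h4)
  rw [eval₂_toMv fn D P h1] at h5
  exact h5

end Pool.Agent.V11210.NA
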