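import Pool.Agent.V11210.NA.Select

/-!
# Near relations between a number with a transcendence measure and arbitrary numbers
-/

set_option autoImplicit false

namespace Pool.Agent.V11210.NA

open Pool.Agent.TH456.TM (σx MeasT σx_coeff)
open scoped Polynomial

variable {r : ℕ}

/-- multiplication by a monomial -/
lemma coeff_mon_mul {R : Type} [CommSemiring R] (a s : Fin r →₀ ℕ) (Q : MvPolynomial (Fin r) R) :
    (MvPolynomial.monomial a 1 * Q).coeff s = if a ≤ s then Q.coeff (s - a) else 0 := by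
  rw [MvPolynomial.coeff_monomial_mul']
  simp

lemma degree_mon_mul {R : Type} [CommSemiring R] {N D : ℕ} {a : Fin r →₀ ℕ} (ha : a ∈ box r N)
    {Q : MvPolynomial (Fin r) R} (hQ : Q.totalDegree ≤ D) :
    (MvPolynomial.monomial a 1 * Q).totalDegree ≤ N + D := by
  refine (MvPolynomial.totalDegree_mul _ _).trans (add_le_add ?_ hQ)
  refine (MvPolynomial.totalDegree_monomial_le _ _).trans ?_
  rw [mem_box, Finsupp.degree_eq_sum] at ha
  rw [Finsupp.sum_fintype _ _ (fun _ => rfl)]
  exact ha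

lemma val_mon_mul (x : ℂ) (t : Fin r → ℂ) (a : Fin r →₀ ℕ) (Q : MvPolynomial (Fin r) ℤ[X]) :
    val x t (MvPolynomial.monomial a 1 * Q) = (∏ i, t i ^ a i) * val x t Q := by
  unfold val
  rw [MvPolynomial.eval₂_mul, MvPolynomial.eval₂_monomial, map_one, one_mul,
    Finsupp.prod_fintype _ _ (fun i => pow_zero _)]

lemma norm_mon_le {T : ℝ} (hT : 1 ≤ T) {N : ℕ} {t : Fin r → ℂ} (ht : ∀ i, ‖t i‖ ≤ T)
    {a : Fin r →₀ ℕ} (ha : a ∈ box r N) : ‖∏ i, t i ^ a i‖ ≤ T ^ N := by
  rw [mem_box, Finsupp.degree_eq_sum] at ha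
  rw [norm_prod]
  calc ∏ i, ‖t i ^ a i‖ ≤ ∏ i, T ^ a i := by
        refine Finset.prod_le_prod (fun i _ => norm_nonneg _) fun i _ => ?_
        rw [norm_pow]
        exact pow_le_pow_left₀ (norm_nonneg _) (ht i) _
    _ = T ^ ∑ i, a i := by rw [Finset.prod_pow_eq_pow_sum]
    _ ≤ T ^ N := pow_le_pow_right₀ hT ha

/-- the multiples of the polynomials `f j` by monomials, as vectors -/
noncomputable def gens {m : ℕ} (N D : ℕ) (f : Fin m → MvPolynomial (Fin r) ℤ[X])
    (i : box r N × Fin m) (s : box r (N + D)) : ℤ[X] :=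
  (MvPolynomial.monomial (i.1 : Fin r →₀ ℕ) 1 * f i.2).coeff s

/-- the unit vector is in the span -/
lemma one_in_span {Ω : Type} [Field Ω] (ι : ℤ[X] →+* Ω) {m N D : ℕ}
    (f : Fin m → MvPolynomial (Fin r) ℤ[X])
    (A : Fin m → MvPolynomial (Fin r) Ω) (hA : ∀ j, (A j).totalDegree ≤ N)
    (h1 : ∑ j, A j * (f j).map ι = 1) (h0 : (0 : Fin r →₀ ℕ) ∈ box r (N + D)) :
    (Pi.single (⟨0, h0⟩ : box r (N + D)) 1 : box r (N + D) → Ω) ∈ Submodule.span Ω
      (Set.range fun (i : box r N × Fin m) (s : box r (N + D)) => ι (gens N D f i s)) := by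
  have h2 : (Pi.single (⟨0, h0⟩ : box r (N + D)) 1 : box r (N + D) → Ω) =
      ∑ j, ∑ a : box r N, (A j).coeff a • fun s : box r (N + D) => ι (gens N D f (a, j) s) := by
    funext s
    have h3 : (Pi.single (⟨0, h0⟩ : box r (N + D)) 1 : box r (N + D) → Ω) s =
        (1 : MvPolynomial (Fin r) Ω).coeff (s : Fin r →₀ ℕ) := by
      rw [MvPolynomial.coeff_one]
      by_cases hs : s = ⟨0, h0⟩
      · subst hs
        simp
      · rw [Pi.single_eq_of_ne hs, if_neg]
        intro h
        exact hs (Subtype.ext h.symm)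
    rw [h3, ← h1, MvPolynomial.coeff_sum, Finset.sum_apply]
    refine Finset.sum_congr rfl fun j _ => ?_
    conv_lhs => rw [← sum_box (hA j)]
    rw [Finset.sum_mul, MvPolynomial.coeff_sum, Finset.sum_apply, ← Finset.sum_coe_sort (box r N)]
    refine Finset.sum_congr rfl fun a _ => ?_
    rw [Pi.smul_apply, smul_eq_mul, gens, ← MvPolynomial.coeff_map, map_mul, MvPolynomial.map_monomial,
      map_one, ← MvPolynomial.coeff_C_mul, ← mul_assoc, MvPolynomial.C_mul_monomial, mul_one]
  rw [h2]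
  refine Submodule.sum_mem _ fun j _ => Submodule.sum_mem _ fun a _ => Submodule.smul_mem _ _ ?_
  exact Submodule.subset_span ⟨(a, j), rfl⟩

/-- bounds for determinants, any index type -/
lemma det_bounds' {M : Type} [Fintype M] [DecidableEq M] (D : ℕ) (H : ℤ) (hH : 0 ≤ H)
    (B : Matrix M M ℤ[X]) (hD : ∀ i j, (B i j).natDegree ≤ D)
    (hB : ∀ i j k, |(B i j).coeff k| ≤ H) :
    B.det.natDegree ≤ Fintype.card M * D ∧ ∀ k, |B.det.coeff k| ≤
      (Fintype.card M).factorial * ((D + 1) * H) ^ Fintype.card M := by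
  have e := (Fintype.equivFin M).symm
  have h1 := Pool.Agent.TH647.NR.det_bounds (Fintype.card M) D H hH (B.submatrix e e)
    (fun i j => hD _ _) (fun i j k => hB _ _ _)
  rwa [Matrix.det_submatrix_equiv_self] at h1

/-- bound for the adjugate -/
lemma adj_bound {M : Type} [Fintype M] [DecidableEq M] (A : Matrix M M ℂ) (b : ℝ) (hb : 1 ≤ b)
    (hA : ∀ i j, ‖A i j‖ ≤ b) (i j : M) :
    ‖A.adjugate i j‖ ≤ (Fintype.card M).factorial * b ^ Fintype.card M := by
  rw [Matrix.adjugate_apply]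
  have h1 := Matrix.det_le (A := A.updateRow j (Pi.single i 1))
    (abv := (NormedField.toAbsoluteValue ℂ)) (x := b) (fun a c => by
      show ‖A.updateRow j (Pi.single i 1) a c‖ ≤ b
      by_cases ha : a = j
      · subst ha
        rw [Matrix.updateRow_self]
        by_cases hb' : c = i
        · subst hb'; simpa using hb
        · rw [Pi.single_eq_of_ne hb', norm_zero]; linarith
      · rw [Matrix.updateRow_ne ha]
        exact hA a c)
  rw [nsmul_eq_mul] at h1
  exact h1

end Pool.Agent.V11210.NA
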