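import Mathlib

/-!
# Cramer's rule for consistent systems with coefficients in a subring
-/

set_option autoImplicit false

namespace Pool.Agent.V11210.NA

theorem la {R Ω : Type} [CommRing R] [Field Ω] (ι : R →+* Ω)
    {M I : Type} [Fintype M] [DecidableEq M] (g : I → M → R) (k0 : M)
    (h : (Pi.single k0 1 : M → Ω) ∈ Submodule.span Ω (Set.range fun i m => ι (g i m))) :
    ∃ (B : Matrix M M R), ι B.det ≠ 0 ∧ (∀ m, (∃ i, B m = g i) ∨ ∃ k, B m = Pi.single k 1) ∧
      (∀ k, ∑ m, B.adjugate k0 m * B m k = if k0 = k then B.det else 0) ∧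
      ∀ m, ι (B.adjugate k0 m) ≠ 0 → ∃ i, B m = g i := by
  classical
  set w : I ⊕ M → M → R := Sum.elim g (fun k => Pi.single k 1) with hw
  set v : I ⊕ M → M → Ω := fun j m => ι (w j m) with hv
  have hvr : ∀ k, v (Sum.inr k) = Pi.single k 1 := by
    intro k
    funext m
    simp only [hv, hw, Sum.elim_inr]
    by_cases hmk : m = k
    · subst hmk; simp
    · rw [Pi.single_eq_of_ne hmk, Pi.single_eq_of_ne hmk, map_zero]
  obtain ⟨b1, hb1t, -, hb1s, hb1li⟩ := exists_linearIndepOn_extension (K := Ω) (v := v)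
    (s := ∅) (t := Set.range Sum.inl) (linearIndepOn_empty Ω v) (Set.empty_subset _)
  obtain ⟨b2, -, hb12, hb2s, hb2li⟩ := exists_linearIndepOn_extension (K := Ω) (v := v)
    (s := b1) (t := Set.univ) hb1li (Set.subset_univ _)
  have htop : ⊤ ≤ Submodule.span Ω (Set.range fun j : b2 => v j) := by
    have h1 : Set.range (fun j : b2 => v j) = v '' b2 := by
      ext x
      simp
    rw [h1, ← (Pi.basisFun Ω M).span_eq, Submodule.span_le]
    rintro _ ⟨k, rfl⟩
    apply hb2s
    refine ⟨Sum.inr k, Set.mem_univ _, ?_⟩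
    rw [hvr, Pi.basisFun_apply]
  let bs : Module.Basis b2 Ω (M → Ω) := Module.Basis.mk hb2li htop
  let e : M ≃ b2 := (Pi.basisFun Ω M).indexEquiv bs
  let bs' : Module.Basis M Ω (M → Ω) := bs.reindex e.symm
  have hbs' : ∀ m, bs' m = v (e m) := by
    intro m
    have h1 : bs' m = bs (e m) := by simp [bs']
    rw [h1]
    exact Module.Basis.mk_apply hb2li htop (e m)
  set B : Matrix M M R := Matrix.of fun m => w (e m) with hB
  have hBrow : ∀ m, B m = w (e m) := fun m => rfl
  have hBι : ∀ m, (ι.mapMatrix B) m = v (e m) := by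
    intro m
    funext k
    rfl
  have hdet : ι B.det ≠ 0 := by
    rw [RingHom.map_det]
    have h1 : LinearIndependent Ω (ι.mapMatrix B).row := by
      have h2 : (ι.mapMatrix B).row = bs' := by
        funext m
        rw [hbs']
        exact hBι m
      rw [h2]
      exact bs'.linearIndependent
    rw [Matrix.linearIndependent_rows_iff_isUnit, Matrix.isUnit_iff_isUnit_det] at h1
    exact h1.ne_zero
  refine ⟨B, hdet, ?_, ?_, ?_⟩
  · intro m
    rw [hBrow]
    rcases h1 : (e m : I ⊕ M) with i | k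
    · exact Or.inl ⟨i, rfl⟩
    · exact Or.inr ⟨k, rfl⟩
  · intro k
    have h1 := congrFun (congrFun (Matrix.adjugate_mul B) k0) k
    rw [Matrix.mul_apply, Matrix.smul_apply, Matrix.one_apply, smul_eq_mul, mul_ite, mul_one,
      mul_zero] at h1
    exact h1
  · intro m hm
    set x : M → Ω := Pi.single k0 1 with hx
    -- the coordinates
    have hsup : ∀ m, bs'.repr x m ≠ 0 → (e m : I ⊕ M) ∈ b1 := by
      have h1 : x ∈ Submodule.span Ω (bs' '' {m | (e m : I ⊕ M) ∈ b1}) := by
        have h2 : Set.range (fun i m => ι (g i m)) ⊆ Submodule.span Ω (v '' b1) := by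
          rintro _ ⟨i, rfl⟩
          apply hb1s
          exact ⟨Sum.inl i, ⟨i, rfl⟩, rfl⟩
        have h3 := Submodule.span_le.2 h2 h
        refine Submodule.span_mono ?_ h3
        rintro _ ⟨j, hj, rfl⟩
        refine ⟨e.symm ⟨j, hb12 hj⟩, ?_, ?_⟩
        · show ((e (e.symm ⟨j, hb12 hj⟩) : b2) : I ⊕ M) ∈ b1
          rw [Equiv.apply_symm_apply]
          exact hj
        · rw [hbs', Equiv.apply_symm_apply]
      rw [Module.Basis.mem_span_image] at h1
      intro m hm
      exact h1 (Finsupp.mem_support_iff.2 hm)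
    have hc : Matrix.vecMul (fun m => bs'.repr x m) (ι.mapMatrix B) = x := by
      have h1 := bs'.sum_repr x
      funext k
      rw [Matrix.vecMul, dotProduct]
      conv_rhs => rw [← h1]
      rw [Finset.sum_apply]
      refine Finset.sum_congr rfl fun m _ => ?_
      rw [Pi.smul_apply, smul_eq_mul, hbs']
      rfl
    have hadj : (ι.mapMatrix B).adjugate k0 m = (ι.mapMatrix B).det * bs'.repr x m := by
      have h1 : Matrix.vecMul x (ι.mapMatrix B).adjugate = (ι.mapMatrix B).det • fun m => bs'.repr x m := by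
        conv_lhs => rw [← hc]
        rw [Matrix.vecMul_vecMul, Matrix.mul_adjugate, Matrix.vecMul_smul, Matrix.vecMul_one]
      have h2 := congrFun h1 m
      rw [hx, Matrix.single_one_vecMul] at h2
      exact h2
    have h2 : ι (B.adjugate k0 m) = (ι.mapMatrix B).adjugate k0 m := by
      rw [← RingHom.map_adjugate]
      rfl
    rw [h2, hadj] at hm
    have h3 := hsup m (right_ne_zero_of_mul hm)
    obtain ⟨i, hi⟩ := hb1t h3
    exact ⟨i, by rw [hBrow, ← hi]; rfl⟩

end Pool.Agent.V11210.NA
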