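import Pool.Agent.V11210.NA.Upper

/-!
# Near relations between a number with a transcendence measure and arbitrary numbers: main theorem
-/

set_option autoImplicit false

namespace Pool.Agent.V11210.NA

open Pool.Agent.TH456.TM (σx MeasT σx_coeff)
open scoped Polynomial

/-- one scale -/
lemma scale {Ω : Type} [Field Ω] (ι : ℤ[X] →+* Ω) (hι : Function.Injective ι) (x : ℂ)
    {r D N m : ℕ} (f : Fin m → MvPolynomial (Fin r) ℤ[X])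
    (A : Fin m → MvPolynomial (Fin r) Ω) (hA : ∀ j, (A j).totalDegree ≤ N)
    (h1 : ∑ j, A j * (f j).map ι = 1) (t : Fin r → ℂ) (T₁ ε H K : ℝ) (hT₁ : 1 ≤ T₁)
    (ht : ∀ i, ‖t i‖ ≤ T₁) (hH : 1 ≤ H) (hε : 0 ≤ ε)
    (hK : K = ((D : ℝ) + 1) * (max 1 ‖x‖) ^ D) (hK1 : 1 ≤ K)
    (hf : ∀ j, Small D H (f j) ∧ ‖val x t (f j)‖ ≤ ε) :
    ∃ P : ℤ[X], P ≠ 0 ∧ P.natDegree ≤ (box r (N + D)).card * D ∧
      (∀ k, |(P.coeff k : ℝ)| ≤ ((box r (N + D)).card.factorial *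
        ((D : ℝ) + 1) ^ (box r (N + D)).card) * H ^ (box r (N + D)).card) ∧
      ‖Polynomial.aeval x P‖ ≤ (box r (N + D)).card *
        (((box r (N + D)).card.factorial * (K * H) ^ (box r (N + D)).card) * (T₁ ^ N * ε)) := by
  have h0 : (0 : Fin r →₀ ℕ) ∈ box r (N + D) := by
    rw [mem_box]
    simp
  obtain ⟨B, hB1, hB2, hB3, hB4⟩ := la ι (gens N D f) ⟨0, h0⟩ (one_in_span ι f A hA h1 h0)
  have hBe : ∀ s k, (B s k).natDegree ≤ D ∧ ∀ i, |((B s k).coeff i : ℝ)| ≤ H :=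
    fun s k => entries H hH f (fun j => (hf j).1) (B s) (hB2 s) k
  have hdet0 : B.det ≠ 0 := fun h => hB1 (by rw [h, map_zero])
  have hd := det_height B D H hH hBe
  have hKH : 1 ≤ K * H := by nlinarith
  have hu := upper ι hι x B ⟨0, h0⟩ (fun k => ∏ l, t l ^ (k : Fin r →₀ ℕ) l) (by simp) (K * H)
    (T₁ ^ N * ε) hKH (by positivity) (fun s k => by
      have h2 := σx_coeff x D (B s k) H (hBe s k).1 (hBe s k).2
      rw [← hK] at h2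
      exact h2) hB3 (fun s hs => by
      obtain ⟨i, hi⟩ := hB4 s hs
      rw [hi]
      exact row_bound x t T₁ ε hT₁ ht f (fun j => ⟨(hf j).1.1, (hf j).2⟩) i)
  rw [Fintype.card_coe] at hd hu
  exact ⟨B.det, hdet0, hd.1, hd.2, hu⟩

/-- **Near relations between `x` and arbitrary numbers `t` are exact relations of functions.** -/
theorem near_core {Ω : Type} [Field Ω] [IsAlgClosed Ω] (ι : ℤ[X] →+* Ω)
    (hι : Function.Injective ι) (x : ℂ) (hx : MeasT x) (r D : ℕ) :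
    ∃ κ : ℝ, 0 < κ ∧ ∀ T : ℝ, ∃ c : ℝ, 0 < c ∧ ∀ t : Fin r → ℂ, (∀ i, ‖t i‖ ≤ T) →
      ∀ H : ℝ, 1 ≤ H → ∃ y : Fin r → Ω, ∀ Q : MvPolynomial (Fin r) ℤ[X], Small D H Q →
        ‖val x t Q‖ < c * H ^ (-κ) → Q.eval₂ ι y = 0 := by
  obtain ⟨N, hN⟩ := bddNull Ω r D (box r D).card
  obtain ⟨L, hL⟩ : ∃ L : ℕ, L = (box r (N + D)).card := ⟨_, rfl⟩
  obtain ⟨κ₀, c₀, hκ₀, hc₀, hm⟩ := hx (L * D)
  have h0 : (0 : Fin r →₀ ℕ) ∈ box r (N + D) := by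
    rw [mem_box]
    simp
  have hL1 : 1 ≤ L := by
    rw [hL]
    exact Finset.card_pos.2 ⟨0, h0⟩
  have hL0 : (0 : ℝ) < L := by exact_mod_cast hL1
  obtain ⟨W, hW⟩ : ∃ W : ℝ, W = L.factorial * ((D : ℝ) + 1) ^ L := ⟨_, rfl⟩
  have hfac : (1 : ℝ) ≤ L.factorial := by
    exact_mod_cast Nat.one_le_iff_ne_zero.2 (Nat.factorial_ne_zero L)
  have hD0 : (0 : ℝ) ≤ D := Nat.cast_nonneg D
  have hW1 : 1 ≤ W := by
    rw [hW]
    have h1 : (1 : ℝ) ≤ ((D : ℝ) + 1) ^ L := one_le_pow₀ (by linarith)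
    nlinarith
  refine ⟨L * κ₀ + L, by positivity, fun T => ?_⟩
  obtain ⟨T₁, hT₁⟩ : ∃ T₁ : ℝ, T₁ = max 1 T := ⟨_, rfl⟩
  have hT₁1 : 1 ≤ T₁ := by rw [hT₁]; exact le_max_left _ _
  obtain ⟨K, hK⟩ : ∃ K : ℝ, K = ((D : ℝ) + 1) * (max 1 ‖x‖) ^ D := ⟨_, rfl⟩
  have hK1 : 1 ≤ K := by
    rw [hK]
    have h1 : (1 : ℝ) ≤ (max 1 ‖x‖) ^ D := one_le_pow₀ (le_max_left _ _)
    nlinarith
  obtain ⟨C₁, hC₁⟩ : ∃ C₁ : ℝ, C₁ = W ^ κ₀ * (L * ((L.factorial * K ^ L) * T₁ ^ N)) := ⟨_, rfl⟩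
  have hC₁0 : 0 < C₁ := by
    rw [hC₁]
    positivity
  refine ⟨c₀ / (2 * C₁), by positivity, fun t ht H hH => ?_⟩
  have hH0 : 0 < H := by linarith
  obtain ⟨ε, hε⟩ : ∃ ε : ℝ, ε = c₀ / (2 * C₁) * H ^ (-(L * κ₀ + L)) := ⟨_, rfl⟩
  have hε0 : 0 < ε := by rw [hε]; positivity
  rw [← hε]
  have ht1 : ∀ i, ‖t i‖ ≤ T₁ := fun i => (ht i).trans (by rw [hT₁]; exact le_max_right _ _)
  obtain ⟨f, hfS, hf⟩ := select ι {Q | Small D H Q ∧ ‖val x t Q‖ < ε} (by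
      refine ⟨⟨by simp, fun m => ⟨by simp, fun i => by simp; exact hH0.le⟩⟩, ?_⟩
      simp only [val, MvPolynomial.eval₂_zero, norm_zero]
      exact hε0) (D := D) (fun Q hQ => hQ.1.1)
  by_cases h : ∃ y : Fin r → Ω, ∀ j, (f j).eval₂ ι y = 0
  · obtain ⟨y, hy⟩ := h
    exact ⟨y, fun Q hQ1 hQ2 => hf y hy Q ⟨hQ1, hQ2⟩⟩
  exfalso
  push Not at h
  obtain ⟨A, hAN, hA1⟩ := hN (fun j => (f j).map ι) (fun j => by
      refine le_trans ?_ (hfS j).1.1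
      rw [MvPolynomial.totalDegree, MvPolynomial.totalDegree]
      exact Finset.sup_mono (MvPolynomial.support_map_subset _ _)) (fun y => by
      obtain ⟨j, hj⟩ := h y
      exact ⟨j, by rwa [MvPolynomial.eval_map]⟩)
  obtain ⟨P, hP0, hP1, hP2, hP3⟩ := scale ι hι x f A hAN hA1 t T₁ ε H K hT₁1 ht1 hH hε0.le hK hK1
    (fun j => ⟨(hfS j).1, (hfS j).2.le⟩)
  rw [← hL] at hP1 hP2 hP3
  rw [← hW] at hP2
  have hlow := hm P hP0 hP1 (W * H ^ L) (by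
    have : (1 : ℝ) ≤ H ^ L := one_le_pow₀ hH
    nlinarith) hP2
  rw [hε] at hP3
  exact final L N κ₀ c₀ W K T₁ H C₁ _ hκ₀ hc₀ hW1 hH hC₁0 hC₁ hlow hP3

end Pool.Agent.V11210.NA
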