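import Pool.Agent.V11210.NA.Ultra
import Pool.Agent.V11210.NA.LA
import Pool.Agent.TH456.TM.Near

/-!
# Polynomials with coefficients in `ℤ[X]`: values, selection of a finite subsystem
-/

set_option autoImplicit false

namespace Pool.Agent.V11210.NA

open Pool.Agent.TH456.TM (σx MeasT)
open scoped Polynomial

/-- total degree and degrees of the coefficients at most `D`, coefficients at most `H` -/
def Small {r : ℕ} (D : ℕ) (H : ℝ) (Q : MvPolynomial (Fin r) ℤ[X]) : Prop :=
  Q.totalDegree ≤ D ∧ ∀ m, (Q.coeff m).natDegree ≤ D ∧ ∀ i, |((Q.coeff m).coeff i : ℝ)| ≤ H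

/-- the value `Q(x, t)` -/
noncomputable def val {r : ℕ} (x : ℂ) (t : Fin r → ℂ) (Q : MvPolynomial (Fin r) ℤ[X]) : ℂ :=
  Q.eval₂ (σx x) t

lemma eval₂_eq_sum {R S : Type} [CommSemiring R] [CommSemiring S] {r k : ℕ} (φ : R →+* S)
    (y : Fin r → S) {Q : MvPolynomial (Fin r) R} (hQ : Q.totalDegree ≤ k) :
    Q.eval₂ φ y = ∑ s ∈ box r k, φ (Q.coeff s) * ∏ i, y i ^ s i := by
  conv_lhs => rw [← sum_box hQ]
  rw [MvPolynomial.eval₂_sum]
  refine Finset.sum_congr rfl fun s _ => ?_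
  rw [MvPolynomial.eval₂_monomial, Finsupp.prod_fintype _ _ (fun i => pow_zero _)]

lemma select {Ω : Type} [Field Ω] (ι : ℤ[X] →+* Ω) {r D : ℕ} (S : Set (MvPolynomial (Fin r) ℤ[X]))
    (h0 : 0 ∈ S) (hS : ∀ Q ∈ S, Q.totalDegree ≤ D) :
    ∃ f : Fin (box r D).card → MvPolynomial (Fin r) ℤ[X], (∀ j, f j ∈ S) ∧
      ∀ y : Fin r → Ω, (∀ j, (f j).eval₂ ι y = 0) → ∀ Q ∈ S, Q.eval₂ ι y = 0 := by
  classical
  set v : MvPolynomial (Fin r) ℤ[X] → (box r D → Ω) := fun Q s => ι (Q.coeff s) with hv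
  obtain ⟨b, hbS, -, hspan, hli⟩ := exists_linearIndepOn_extension (K := Ω) (v := v)
    (s := ∅) (t := S) (linearIndepOn_empty Ω v) (Set.empty_subset _)
  have hfin : Finite b := LinearIndependent.finite_of_isNoetherian hli
  let : Fintype b := Fintype.ofFinite b
  have hcard : Fintype.card b ≤ Fintype.card (Fin (box r D).card) := by
    have h1 := LinearIndependent.fintype_card_le_finrank hli
    rw [Module.finrank_fintype_fun_eq_card, Fintype.card_coe] at h1
    rw [Fintype.card_fin]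
    exact h1
  obtain ⟨e⟩ := Function.Embedding.nonempty_of_card_le hcard
  refine ⟨fun j => if h : ∃ q : b, e q = j then (h.choose : MvPolynomial (Fin r) ℤ[X]) else 0,
    fun j => ?_, fun y hy Q hQ => ?_⟩
  · dsimp only
    split_ifs with h
    · exact hbS h.choose.2
    · exact h0
  · let lam : (box r D → Ω) →ₗ[Ω] Ω :=
      ∑ s : box r D, (∏ i, y i ^ (s : Fin r →₀ ℕ) i) • LinearMap.proj s
    have hlam : ∀ P ∈ S, P.eval₂ ι y = lam (v P) := by
      intro P hP
      rw [eval₂_eq_sum ι y (hS P hP), ← Finset.sum_coe_sort (box r D)]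
      simp only [lam, LinearMap.sum_apply, LinearMap.smul_apply, LinearMap.proj_apply, smul_eq_mul,
        hv]
      refine Finset.sum_congr rfl fun s _ => mul_comm _ _
    have hb : ∀ q ∈ b, lam (v q) = 0 := by
      intro q hq
      rw [← hlam q (hbS hq)]
      have h1 := hy (e ⟨q, hq⟩)
      have h2 : ∃ q' : b, e q' = e ⟨q, hq⟩ := ⟨_, rfl⟩
      dsimp only at h1
      rw [dif_pos h2, e.injective h2.choose_spec] at h1
      exact h1
    rw [hlam Q hQ]
    have h2 : Submodule.span Ω (v '' b) ≤ LinearMap.ker lam := by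
      rw [Submodule.span_le]
      rintro _ ⟨q, hq, rfl⟩
      exact hb q hq
    exact h2 (hspan ⟨Q, hQ, rfl⟩)

end Pool.Agent.V11210.NA
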