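import Mathlib

/-!
# A Nullstellensatz with bounded degrees, by ultrapowers
-/

set_option autoImplicit false

namespace Pool.Agent.V11210.NA

open Filter

section ultra

variable (Ω : Type) [Field Ω] (U : Ultrafilter ℕ)

/-- the ultrapower of `Ω` -/
def Kst : Type := (U : Filter ℕ).Germ Ω

noncomputable instance : Field (Kst Ω U) :=
  inferInstanceAs (Field ((U : Filter ℕ).Germ Ω))

/-- class of a sequence -/
noncomputable def toK : (ℕ → Ω) →+* Kst Ω U :=
  Filter.Germ.coeRingHom (U : Filter ℕ)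

lemma toK_surj (z : Kst Ω U) : ∃ f, toK Ω U f = z := by
  refine Quotient.inductionOn' z ?_
  intro f
  exact ⟨f, rfl⟩

lemma toK_eq_iff (f g : ℕ → Ω) : toK Ω U f = toK Ω U g ↔ ∀ᶠ j in (U : Filter ℕ), f j = g j := by
  exact Filter.Germ.coe_eq

lemma toK_eq_zero_iff (f : ℕ → Ω) : toK Ω U f = 0 ↔ ∀ᶠ j in (U : Filter ℕ), f j = 0 := by
  rw [← map_zero (toK Ω U), toK_eq_iff]
  rfl

instance [IsAlgClosed Ω] : IsAlgClosed (Kst Ω U) := by
  apply IsAlgClosed.of_exists_root
  intro p hmon hirr
  have hdeg : 0 < p.natDegree := hirr.natDegree_pos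
  choose c hc using fun i => toK_surj Ω U (p.coeff i)
  set n := p.natDegree with hn
  have hroot : ∀ j : ℕ, ∃ r : Ω, r ^ n + ∑ i ∈ Finset.range n, c i j * r ^ i = 0 := by
    intro j
    set P : Polynomial Ω := Polynomial.X ^ n +
      ∑ i ∈ Finset.range n, Polynomial.C (c i j) * Polynomial.X ^ i with hP
    have hlt : (∑ i ∈ Finset.range n, Polynomial.C (c i j) * Polynomial.X ^ i).degree <
        ((n : ℕ) : WithBot ℕ) := by
      refine (Polynomial.degree_sum_le _ _).trans_lt ?_
      refine (Finset.sup_lt_iff (WithBot.bot_lt_coe n)).mpr ?_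
      intro i hi
      refine (Polynomial.degree_C_mul_X_pow_le _ _).trans_lt ?_
      exact WithBot.coe_lt_coe.mpr (Finset.mem_range.mp hi)
    have hPdeg : P.degree = n := by
      rw [hP, Polynomial.degree_add_eq_left_of_degree_lt]
      · exact Polynomial.degree_X_pow n
      · rw [Polynomial.degree_X_pow]; exact hlt
    obtain ⟨r, hr⟩ := IsAlgClosed.exists_root P (by
      rw [hPdeg]
      exact_mod_cast hdeg.ne')
    refine ⟨r, ?_⟩
    have := hr.eq_zero
    rw [hP] at this
    simpa [Polynomial.eval_finsetSum] using this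
  choose r hr using hroot
  refine ⟨toK Ω U r, ?_⟩
  rw [hmon.as_sum]
  rw [Polynomial.eval_add, Polynomial.eval_pow, Polynomial.eval_X, Polynomial.eval_finsetSum]
  simp only [Polynomial.eval_mul, Polynomial.eval_C, Polynomial.eval_pow, Polynomial.eval_X, ← hc]
  rw [← hn]
  have : toK Ω U (fun j => r j ^ n + ∑ i ∈ Finset.range n, c i j * r j ^ i) = 0 := by
    have h0 : (fun j => r j ^ n + ∑ i ∈ Finset.range n, c i j * r j ^ i) = 0 := by
      funext j; exact hr j
    rw [h0, map_zero]
  rw [← this]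
  have e : (fun j => r j ^ n + ∑ i ∈ Finset.range n, c i j * r j ^ i) =
      r ^ n + ∑ i ∈ Finset.range n, c i * r ^ i := by
    funext j
    simp [Finset.sum_apply]
  rw [e, map_add, map_pow, map_sum]
  simp only [map_mul, map_pow]

end ultra

/-- the exponents of degree at most `k` -/
noncomputable def box (r k : ℕ) : Finset (Fin r →₀ ℕ) := (Finsupp.finite_of_degree_le (σ := Fin r) k).toFinset

lemma mem_box {r k : ℕ} {m : Fin r →₀ ℕ} : m ∈ box r k ↔ m.degree ≤ k := by
  unfold box
  rw [Set.Finite.mem_toFinset]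
  rfl

lemma coeff_eq_zero_of_box {R : Type} [CommSemiring R] {r D : ℕ} {P : MvPolynomial (Fin r) R}
    (hP : P.totalDegree ≤ D) {m : Fin r →₀ ℕ} (hm : m ∉ box r D) : P.coeff m = 0 := by
  by_contra h
  apply hm
  rw [mem_box]
  refine le_trans ?_ hP
  have h1 := MvPolynomial.le_totalDegree (MvPolynomial.mem_support_iff.2 h)
  rw [Finsupp.degree_eq_sum, Finsupp.sum_fintype _ _ (fun _ => rfl)] at *
  exact h1

lemma sum_box {R : Type} [CommSemiring R] {r D : ℕ} {P : MvPolynomial (Fin r) R}
    (hP : P.totalDegree ≤ D) : ∑ m ∈ box r D, MvPolynomial.monomial m (P.coeff m) = P := by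
  classical
  ext m
  rw [MvPolynomial.coeff_sum]
  simp only [MvPolynomial.coeff_monomial]
  rw [Finset.sum_ite_eq']
  split_ifs with h
  · rfl
  · rw [coeff_eq_zero_of_box hP h]

/-- a Nullstellensatz with bounded degrees -/
theorem bddNull (Ω : Type) [Field Ω] [IsAlgClosed Ω] (r D m : ℕ) : ∃ N : ℕ,
    ∀ P : Fin m → MvPolynomial (Fin r) Ω, (∀ j, (P j).totalDegree ≤ D) →
      (∀ y : Fin r → Ω, ∃ j, MvPolynomial.eval y (P j) ≠ 0) →
      ∃ A : Fin m → MvPolynomial (Fin r) Ω, (∀ j, (A j).totalDegree ≤ N) ∧ ∑ j, A j * P j = 1 := by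
  classical
  by_contra hcon
  push Not at hcon
  choose P hD hz hA using hcon
  set U : Ultrafilter ℕ := hyperfilter ℕ with hU
  obtain ⟨Q, hQ⟩ : ∃ Q : Fin m → MvPolynomial (Fin r) (ℕ → Ω),
      ∀ j n, (Q j).map (Pi.evalRingHom (fun _ : ℕ => Ω) n) = P n j := by
    refine ⟨fun j => ∑ s ∈ box r D, MvPolynomial.monomial s (fun n => (P n j).coeff s), fun j n => ?_⟩
    rw [map_sum]
    simp only [MvPolynomial.map_monomial, Pi.evalRingHom_apply]
    exact sum_box (hD n j)
  by_cases h : ∃ y : Fin r → Kst Ω U, ∀ j, MvPolynomial.eval y ((Q j).map (toK Ω U)) = 0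
  · obtain ⟨y, hy⟩ := h
    choose f hf using fun i => toK_surj Ω U (y i)
    have h1 : ∀ j, ∀ᶠ n in (U : Filter ℕ), MvPolynomial.eval (fun i => f i n) (P n j) = 0 := by
      intro j
      have h2 := hy j
      have h3 : y = toK Ω U ∘ f := funext fun i => (hf i).symm
      rw [h3, ← MvPolynomial.map_eval, toK_eq_zero_iff] at h2
      filter_upwards [h2] with n hn
      have h4 := MvPolynomial.map_eval (Pi.evalRingHom (fun _ : ℕ => Ω) n) f (Q j)
      rw [hQ] at h4
      have h5 : (Pi.evalRingHom (fun _ : ℕ => Ω) n) ∘ f = fun i => f i n := rfl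
      rw [h5] at h4
      rw [← h4]
      exact hn
    obtain ⟨n, hn⟩ := (eventually_all.2 h1).exists
    obtain ⟨j, hj⟩ := hz n (fun i => f i n)
    exact hj (hn j)
  · push Not at h
    set I : Ideal (MvPolynomial (Fin r) (Kst Ω U)) :=
      Ideal.span (Set.range fun j => (Q j).map (toK Ω U)) with hI
    have h1 := MvPolynomial.vanishingIdeal_zeroLocus_eq_radical (k := Kst Ω U) (K := Kst Ω U) I
    have h2 : MvPolynomial.zeroLocus (Kst Ω U) I = ∅ := by
      rw [Set.eq_empty_iff_forall_notMem]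
      intro y hy
      rw [MvPolynomial.mem_zeroLocus_iff] at hy
      obtain ⟨j, hj⟩ := h y
      exact hj (by
        have := hy _ (Ideal.subset_span ⟨j, rfl⟩)
        rwa [MvPolynomial.aeval_eq_eval] at this)
    rw [h2, MvPolynomial.vanishingIdeal_empty] at h1
    have h3 : (1 : MvPolynomial (Fin r) (Kst Ω U)) ∈ I.radical := by
      rw [← h1]
      trivial
    rw [Ideal.mem_radical_iff] at h3
    obtain ⟨k, hk⟩ := h3
    rw [one_pow, hI, Ideal.mem_span_range_iff_exists_fun] at hk
    obtain ⟨c, hc⟩ := hk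
    have hsurj : Function.Surjective (toK Ω U) := toK_surj Ω U
    choose C hC using fun j => MvPolynomial.map_surjective (σ := Fin r) (toK Ω U) hsurj (c j)
    set E : MvPolynomial (Fin r) (ℕ → Ω) := ∑ j, C j * Q j - 1 with hE
    have hE0 : E.map (toK Ω U) = 0 := by
      rw [hE, map_sub, map_sum, map_one]
      simp only [map_mul, hC]
      rw [hc, sub_self]
    have h4 : ∀ s ∈ E.support, ∀ᶠ n in (U : Filter ℕ), (E.coeff s) n = 0 := by
      intro s _
      rw [← toK_eq_zero_iff, ← MvPolynomial.coeff_map, hE0, MvPolynomial.coeff_zero]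
    have h5 : ∀ᶠ n in (U : Filter ℕ), ∀ s ∈ E.support, (E.coeff s) n = 0 :=
      (Filter.eventually_all_finset _).2 h4
    set N₀ : ℕ := Finset.univ.sup fun j => (C j).totalDegree with hN₀
    have h6 : ∀ᶠ n in (U : Filter ℕ), N₀ ≤ n := by
      have : (U : Filter ℕ) ≤ atTop := by
        rw [hU]
        exact Nat.hyperfilter_le_atTop
      exact this (eventually_ge_atTop N₀)
    obtain ⟨n, hn, hn0⟩ := (h5.and h6).exists
    have h7 : E.map (Pi.evalRingHom (fun _ : ℕ => Ω) n) = 0 := by
      ext s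
      rw [MvPolynomial.coeff_map, MvPolynomial.coeff_zero, Pi.evalRingHom_apply]
      by_cases hs : s ∈ E.support
      · exact hn s hs
      · rw [MvPolynomial.notMem_support_iff.1 hs]
        rfl
    rw [hE, map_sub, map_sum, map_one, sub_eq_zero] at h7
    simp only [map_mul, hQ] at h7
    refine hA n (fun j => (C j).map (Pi.evalRingHom (fun _ : ℕ => Ω) n)) (fun j => ?_) h7
    refine le_trans ?_ hn0
    refine le_trans ?_ (Finset.le_sup (f := fun j => (C j).totalDegree) (Finset.mem_univ j))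
    rw [MvPolynomial.totalDegree, MvPolynomial.totalDegree]
    exact Finset.sup_mono (MvPolynomial.support_map_subset _ _)

end Pool.Agent.V11210.NA
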