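import Pool.Agent.V11210.NA.Core

/-!
# The upper bound for the determinant, and the final computation
-/

set_option autoImplicit false

namespace Pool.Agent.V11210.NA

open Pool.Agent.TH456.TM (σx MeasT σx_coeff)
open scoped Polynomial

lemma upper {Ω : Type} [Field Ω] (ι : ℤ[X] →+* Ω) (hι : Function.Injective ι) (x : ℂ)
    {M : Type} [Fintype M] [DecidableEq M] (B : Matrix M M ℤ[X]) (k0 : M) (τ : M → ℂ)
    (hτ : τ k0 = 1) (b δ : ℝ) (hb : 1 ≤ b) (hδ : 0 ≤ δ) (hB : ∀ s k, ‖σx x (B s k)‖ ≤ b)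
    (hid : ∀ k, ∑ s, B.adjugate k0 s * B s k = if k0 = k then B.det else 0)
    (hrow : ∀ s, ι (B.adjugate k0 s) ≠ 0 → ‖∑ k, σx x (B s k) * τ k‖ ≤ δ) :
    ‖σx x B.det‖ ≤ Fintype.card M * (((Fintype.card M).factorial * b ^ Fintype.card M) * δ) := by
  have hadj : ∀ s, ‖σx x (B.adjugate k0 s)‖ ≤ (Fintype.card M).factorial * b ^ Fintype.card M := by
    intro s
    have h1 : σx x (B.adjugate k0 s) = ((σx x).mapMatrix B).adjugate k0 s := by
      rw [← RingHom.map_adjugate]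
      rfl
    rw [h1]
    exact adj_bound _ _ hb (fun i j => hB i j) _ _
  have h1 : ∀ k, (∑ s, σx x (B.adjugate k0 s) * σx x (B s k)) * τ k =
      if k0 = k then σx x B.det else 0 := by
    intro k
    have h2 := congrArg (σx x) (hid k)
    rw [map_sum] at h2
    simp only [map_mul] at h2
    rw [h2]
    split_ifs with hk
    · rw [← hk, hτ, mul_one]
    · rw [map_zero, zero_mul]
  have h2 : ∑ k, (∑ s, σx x (B.adjugate k0 s) * σx x (B s k)) * τ k = σx x B.det := by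
    rw [Finset.sum_congr rfl fun k _ => h1 k, Finset.sum_ite_eq]
    simp
  have h3 : σx x B.det = ∑ s, σx x (B.adjugate k0 s) * ∑ k, σx x (B s k) * τ k := by
    rw [← h2]
    simp only [Finset.sum_mul, Finset.mul_sum]
    rw [Finset.sum_comm]
    refine Finset.sum_congr rfl fun s _ => Finset.sum_congr rfl fun k _ => ?_
    ring
  rw [h3]
  refine (norm_sum_le _ _).trans ?_
  calc ∑ s, ‖σx x (B.adjugate k0 s) * ∑ k, σx x (B s k) * τ k‖
      ≤ ∑ _s : M, ((Fintype.card M).factorial * b ^ Fintype.card M) * δ := by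
        refine Finset.sum_le_sum fun s _ => ?_
        by_cases hs : ι (B.adjugate k0 s) = 0
        · have h2 : B.adjugate k0 s = 0 := hι (by rw [hs, map_zero])
          rw [h2, map_zero, zero_mul, norm_zero]
          positivity
        · rw [norm_mul]
          have h2 := hadj s
          have h3 := hrow s hs
          gcongr
    _ = _ := by
        rw [Finset.sum_const, Finset.card_univ, nsmul_eq_mul]

/-- height of the determinant -/
lemma det_height {M : Type} [Fintype M] [DecidableEq M] (B : Matrix M M ℤ[X]) (D : ℕ) (H : ℝ)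
    (hH : 1 ≤ H) (hB : ∀ s k, (B s k).natDegree ≤ D ∧ ∀ i, |((B s k).coeff i : ℝ)| ≤ H) :
    B.det.natDegree ≤ Fintype.card M * D ∧ ∀ k, |(B.det.coeff k : ℝ)| ≤
      ((Fintype.card M).factorial * ((D : ℝ) + 1) ^ Fintype.card M) * H ^ Fintype.card M := by
  have hH0 : 0 < H := by linarith
  have hfl : (0 : ℤ) ≤ ⌊H⌋ := Int.floor_nonneg.2 hH0.le
  have hb := det_bounds' D ⌊H⌋ hfl B (fun s k => (hB s k).1) (fun s k i => by
    rw [Int.le_floor]
    push_cast
    exact (hB s k).2 i)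
  refine ⟨hb.1, fun k => ?_⟩
  have h1 : ((|B.det.coeff k| : ℤ) : ℝ) ≤
      (((Fintype.card M).factorial * ((D + 1) * ⌊H⌋) ^ Fintype.card M : ℤ) : ℝ) := by
    exact_mod_cast hb.2 k
  push_cast at h1
  refine h1.trans ?_
  have h2 : (⌊H⌋ : ℝ) ≤ H := Int.floor_le H
  have h3 : (0 : ℝ) ≤ ⌊H⌋ := by exact_mod_cast hfl
  rw [mul_pow]
  calc ((Fintype.card M).factorial : ℝ) * (((D : ℝ) + 1) ^ Fintype.card M *
        (⌊H⌋ : ℝ) ^ Fintype.card M)
      ≤ ((Fintype.card M).factorial : ℝ) * (((D : ℝ) + 1) ^ Fintype.card M *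
        H ^ Fintype.card M) := by gcongr
    _ = _ := by ring

/-- the final computation -/
lemma final (L N : ℕ) (κ₀ c₀ W K T₁ H C₁ y : ℝ) (hκ₀ : 0 ≤ κ₀) (hc₀ : 0 < c₀) (hW : 1 ≤ W)
    (hH : 1 ≤ H) (hC₁0 : 0 < C₁)
    (hC₁ : C₁ = W ^ κ₀ * (L * ((L.factorial * K ^ L) * T₁ ^ N)))
    (hlow : c₀ ≤ (W * H ^ L) ^ κ₀ * y)
    (hup : y ≤ L * ((L.factorial * (K * H) ^ L) * (T₁ ^ N *
      (c₀ / (2 * C₁) * H ^ (-(L * κ₀ + L)))))) : False := by
  have hH0 : 0 < H := by linarith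
  have hfin : c₀ ≤ c₀ / 2 := by
    calc c₀ ≤ (W * H ^ L) ^ κ₀ * y := hlow
      _ ≤ (W * H ^ L) ^ κ₀ * (L * ((L.factorial * (K * H) ^ L) * (T₁ ^ N *
          (c₀ / (2 * C₁) * H ^ (-(L * κ₀ + L)))))) := by gcongr
      _ = C₁ * (H ^ (L * κ₀) * H ^ (L : ℝ)) * (c₀ / (2 * C₁) * H ^ (-(L * κ₀ + L))) := by
          rw [Real.mul_rpow (by linarith) (by positivity), ← Real.rpow_natCast H L,
            ← Real.rpow_mul hH0.le, mul_pow, ← Real.rpow_natCast H L]
          conv_rhs => rw [hC₁]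
          conv_lhs => rw [hC₁]
          ring
      _ = c₀ / 2 := by
          rw [← Real.rpow_add hH0]
          have h1 : H ^ ((L : ℝ) * κ₀ + L) * H ^ (-((L : ℝ) * κ₀ + L)) = 1 := by
            rw [← Real.rpow_add hH0]
            simp
          calc C₁ * H ^ ((L : ℝ) * κ₀ + L) * (c₀ / (2 * C₁) * H ^ (-((L : ℝ) * κ₀ + L)))
              = C₁ * (c₀ / (2 * C₁)) * (H ^ ((L : ℝ) * κ₀ + L) * H ^ (-((L : ℝ) * κ₀ + L))) := by ring
            _ = c₀ / 2 := by
                rw [h1]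
                field_simp
  linarith

/-- the rows -/
lemma row_bound {r N D m : ℕ} (x : ℂ) (t : Fin r → ℂ) (T₁ ε : ℝ) (hT₁ : 1 ≤ T₁)
    (ht : ∀ i, ‖t i‖ ≤ T₁) (f : Fin m → MvPolynomial (Fin r) ℤ[X])
    (hf : ∀ j, (f j).totalDegree ≤ D ∧ ‖val x t (f j)‖ ≤ ε) (i : box r N × Fin m) :
    ‖∑ k : box r (N + D), σx x (gens N D f i k) *
      ∏ l, t l ^ (k : Fin r →₀ ℕ) l‖ ≤ T₁ ^ N * ε := by
  have h0 : ∑ k : box r (N + D), σx x (gens N D f i k) * ∏ l, t l ^ (k : Fin r →₀ ℕ) l =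
      MvPolynomial.eval₂ (σx x) t (MvPolynomial.monomial (i.1 : Fin r →₀ ℕ) 1 * f i.2) := by
    rw [eval₂_eq_sum (σx x) t (degree_mon_mul i.1.2 (hf i.2).1)]
    exact Finset.sum_coe_sort (box r (N + D)) (fun k => σx x ((MvPolynomial.monomial
      (i.1 : Fin r →₀ ℕ) 1 * f i.2).coeff k) * ∏ l, t l ^ k l)
  rw [h0]
  have h1 := val_mon_mul x t i.1 (f i.2)
  unfold val at h1
  rw [h1, norm_mul]
  have h2 := norm_mon_le hT₁ ht i.1.2
  have h3 : ‖MvPolynomial.eval₂ (σx x) t (f i.2)‖ ≤ ε := (hf i.2).2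
  gcongr

/-- the entries -/
lemma entries {r N D m : ℕ} (H : ℝ) (hH : 1 ≤ H) (f : Fin m → MvPolynomial (Fin r) ℤ[X])
    (hf : ∀ j, Small D H (f j)) (b : box r (N + D) → ℤ[X])
    (hb : (∃ i : box r N × Fin m, b = gens N D f i) ∨ ∃ k, b = Pi.single k 1)
    (k : box r (N + D)) :
    (b k).natDegree ≤ D ∧ ∀ i, |((b k).coeff i : ℝ)| ≤ H := by
  have hH0 : 0 < H := by linarith
  rcases hb with ⟨i, rfl⟩ | ⟨l, rfl⟩
  · rw [gens, coeff_mon_mul]
    split_ifs with has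
    · exact (hf _).2 _
    · exact ⟨by simp, fun i => by simp; exact hH0.le⟩
  · by_cases hkl : k = l
    · subst hkl
      rw [Pi.single_eq_same]
      refine ⟨by simp, fun i => ?_⟩
      rw [Polynomial.coeff_one]
      split_ifs
      · simpa using hH
      · simpa using hH0.le
    · rw [Pi.single_eq_of_ne hkl]
      exact ⟨by simp, fun i => by simp; exact hH0.le⟩

end Pool.Agent.V11210.NA
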